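import Pool.Agent.SympBilliard.Reduce

set_option autoImplicit false

open Pool.Agent.SympBilliard

/-- Every convex polygon with at most four vertices (every triangle and every convex
quadrilateral) has a periodic symplectic billiard orbit. The conclusion is word for word the
one of the general question: boundary points off the vertices, each next chord endpoint on the
line through the previous point parallel to the current side, that line crossing the interior. -/
theorem Pool.Agent.Results.MP_dbbb5c_an.Quadrilaterals.result :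
  ∀ S : Finset (ℝ × ℝ), S.card ≤ 4 →
    (interior (convexHull ℝ (↑S : Set (ℝ × ℝ)))).Nonempty →
    ∃ n : ℕ, 0 < n ∧ ∃ x : ℕ → ℝ × ℝ, (∀ i, x (i + n) = x i) ∧
      ∀ i : ℕ,
        x i ∈ frontier (convexHull ℝ (↑S : Set (ℝ × ℝ))) ∧
        x i ∉ Set.extremePoints ℝ (convexHull ℝ (↑S : Set (ℝ × ℝ))) ∧
        x (i + 2) ≠ x i ∧
        ∃ a b : ℝ, (a ≠ 0 ∨ b ≠ 0) ∧
          a * ((x (i + 2)).1 - (x i).1) + b * ((x (i + 2)).2 - (x i).2) = 0 ∧
          (∀ p ∈ convexHull ℝ (↑S : Set (ℝ × ℝ)),
              a * p.1 + b * p.2 ≤ a * (x (i + 1)).1 + b * (x (i + 1)).2) ∧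
          a * (x i).1 + b * (x i).2 < a * (x (i + 1)).1 + b * (x (i + 1)).2 ∧
          ∃ p ∈ convexHull ℝ (↑S : Set (ℝ × ℝ)),
              a * p.1 + b * p.2 < a * (x i).1 + b * (x i).2 :=
  fun S hcard hS => (walk_finset S hcard hS).hasOrbit (convex_convexHull ℝ _)
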